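import Mathlib
import Pool.Graph.R_pool_sql_team_seeded_47a924f7.T6.H76.DP.Main
import Pool.Graph.R_pool_sql_team_seeded_47a924f7.T6.H76.DP.Col
import Pool.Graph.R_pool_sql_team_seeded_47a924f7.T6.H76.DP.Lead
import Pool.Graph.R_seed8.Results.MP_741d9e_co.TwoAdicBounded

/-!
# Differences and products: one colouring that separates them along a subsequence of every sequence

There is one finite colouring `c` of the natural numbers such that every strictly increasing
sequence `a` of positive integers has an infinite subsequence `b` with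
`c (b m - b n) ≠ c (b n * b m)` for all `n < m`.
-/

set_option autoImplicit false

namespace Pool.Agent.Results.MP_741d9e_co.EveryPairDiffers

/-- one colouring such that every sequence has a pair with difference and product of different
colours -/
theorem some_pair : ∃ (r : ℕ) (c : ℕ → Fin r), ∀ a : ℕ → ℕ, StrictMono a → 0 < a 0 →
    ∃ n m : ℕ, n < m ∧ c (a m - a n) ≠ c (a n * a m) := by
  obtain ⟨r1, c1, h1⟩ := Pool.Agent.Results.MP_741d9e_co.TwoAdicBounded.result 0
  obtain ⟨r2, c2, h2⟩ := Pool.Agent.T6.H76.DP.lead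
  obtain ⟨X, D, hX, hD⟩ := Pool.Agent.T6.H76.DP.lists
  set g : Fin 2 → ℕ → ℕ := fun i x =>
    x / (2 ^ (padicValNat 2 x / 2) * X i x) - 2 ^ (padicValNat 2 x / 2) * X i x with hg
  set f : Fin 2 → ℕ → ℕ := fun i d => if 0 < D i d then D i d * (d + D i d) else d + 1 with hf
  have hfgt : ∀ i d, d < f i d := by
    intro i d
    simp only [hf]
    split_ifs with h
    · nlinarith
    · omega
  have hcg := fun i => Pool.Agent.T6.H76.DP.col_down (g i)
  have hcf := fun i => Pool.Agent.T6.H76.DP.col_up (f i) (hfgt i)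
  choose cg hcg using hcg
  choose cf hcf using hcf
  set c : ℕ → Fin r1 × Fin r2 × (Fin 2 → Fin 2) × (Fin 2 → Fin 2) :=
    fun x => (c1 x, c2 x, fun i => cg i x, fun i => cf i x) with hc
  refine ⟨_, fun x => Fintype.equivFin _ (c x), fun a ha ha0 => ?_⟩
  by_contra hno
  push Not at hno
  have hpos : ∀ n, 0 < a n := fun n => lt_of_lt_of_le ha0 (ha.monotone (Nat.zero_le n))
  have heq : ∀ n m, n < m → c (a m - a n) = c (a n * a m) := fun n m hnm =>
    (Fintype.equivFin _).injective (hno n m hnm)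
  have heq1 : ∀ n m, n < m → c1 (a m - a n) = c1 (a n * a m) := fun n m hnm =>
    congrArg Prod.fst (heq n m hnm)
  have heq2 : ∀ n m, n < m → c2 (a m - a n) = c2 (a n * a m) := fun n m hnm =>
    congrArg (fun p => p.2.1) (heq n m hnm)
  have heq3 : ∀ i n m, n < m → cg i (a m - a n) = cg i (a n * a m) := fun i n m hnm =>
    congrArg (fun p => p.2.2.1 i) (heq n m hnm)
  have heq4 : ∀ i n m, n < m → cf i (a m - a n) = cf i (a n * a m) := fun i n m hnm =>
    congrArg (fun p => p.2.2.2 i) (heq n m hnm)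
  obtain ⟨⟨M, hM⟩, _⟩ := h1 a ha hpos heq1
  -- a valuation which occurs infinitely often
  obtain ⟨V, hV⟩ : ∃ V, ∃ᶠ n in Filter.atTop, padicValNat 2 (a n) = V := by
    by_contra hcon
    push Not at hcon
    have h3 : ∀ᶠ n in Filter.atTop, ∀ V ∈ Finset.range (M + 1), padicValNat 2 (a n) ≠ V := by
      rw [Filter.eventually_all_finset]
      intro V _
      exact hcon V
    obtain ⟨n, hn⟩ := h3.exists
    exact hn (padicValNat 2 (a n)) (Finset.mem_range.2 (Nat.lt_succ_of_le (hM n))) rfl
  have htop : Filter.Tendsto a Filter.atTop Filter.atTop := ha.tendsto_atTop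
  obtain ⟨n, hn1, hn2⟩ := (hV.and_eventually (htop.eventually_ge_atTop (3 * 2 ^ V))).exists
  have hodd : 3 ≤ Pool.Agent.T6.H76.DP.odd (a n) := by
    have h3 := Pool.Agent.T6.H76.DP.odd_mul (a n)
    rw [hn1] at h3
    rw [← h3] at hn2
    exact Nat.le_of_mul_le_mul_right hn2 (by positivity)
  obtain ⟨δ, hδ, B, hB⟩ := Pool.Agent.T6.H76.DP.main hodd
  obtain ⟨m, hm1, ⟨⟨k, hk⟩, hm2⟩, hm3⟩ := (hV.and_eventually (((h2 a ha hpos heq2 δ hδ).and
    (htop.eventually_ge_atTop B)).and (Filter.eventually_gt_atTop n))).exists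
  have hab : a n < a m := ha hm3
  have hpn := hpos n
  have hpm := hpos m
  have hval : padicValNat 2 (a n * a m) / 2 = V := by
    rw [padicValNat.mul (by omega) (by omega), hn1, hm1]
    omega
  rcases hB (a m) k hm2 (hm1.trans hn1.symm) hk with h | h
  · obtain ⟨i, hi⟩ := hX _ _ h
    have h4 : 2 ^ (padicValNat 2 (a n * a m) / 2) * X i (a n * a m) = a n := by
      have h5 := Pool.Agent.T6.H76.DP.odd_mul (a n)
      rw [hn1] at h5
      rw [hval, hi, mul_comm, h5]
    have h6 : g i (a n * a m) = a m - a n := by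
      simp only [hg]
      rw [h4, Nat.mul_div_cancel_left _ hpn]
    have h7 : g i (a n * a m) < a n * a m := by
      rw [h6]
      have : a m ≤ a n * a m := Nat.le_mul_of_pos_left _ hpn
      omega
    have h8 := hcg i (a n * a m) h7
    rw [h6] at h8
    exact h8 (heq3 i n m hm3)
  · obtain ⟨i, hi⟩ := hD _ _ h
    have h6 : f i (a m - a n) = a n * a m := by
      simp only [hf]
      rw [hi, if_pos hpn, Nat.sub_add_cancel hab.le]
    have h8 := hcf i (a m - a n)
    rw [h6] at h8
    exact h8 (heq4 i n m hm3).symm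

/-- if almost all `n` (for an ultrafilter) are related to almost all `m`, then there is an
increasing sequence of pairwise related numbers -/
theorem seq_of_ultra (U : Ultrafilter ℕ) (hU : (U : Filter ℕ) ≤ Filter.cofinite)
    (P : ℕ → ℕ → Prop) (h : ∀ᶠ n in (U : Filter ℕ), ∀ᶠ m in (U : Filter ℕ), P n m) :
    ∃ φ : ℕ → ℕ, StrictMono φ ∧ ∀ n m, n < m → P (φ n) (φ m) := by
  obtain ⟨φ, -, hφ⟩ := exists_seq_of_forall_finset_exists
    (fun n => ∀ᶠ m in (U : Filter ℕ), P n m) (fun n m => n < m ∧ P n m) (by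
      intro s hs
      have h1 : ∀ᶠ m in (U : Filter ℕ), ∀ n ∈ s, P n m := by
        rw [Filter.eventually_all_finset]
        exact hs
      have h2 : ∀ᶠ m in (U : Filter ℕ), ∀ n ∈ s, n < m := by
        rw [Filter.eventually_all_finset]
        intro n _
        refine hU ?_
        rw [Nat.cofinite_eq_atTop]
        exact Filter.eventually_gt_atTop n
      obtain ⟨y, hy1, hy2, hy3⟩ := (h.and (h1.and h2)).exists
      exact ⟨y, hy1, fun x hx => ⟨hy3 x hx, hy2 x hx⟩⟩)
  exact ⟨φ, fun n m hnm => (hφ n m hnm).1, fun n m hnm => (hφ n m hnm).2⟩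

/-- Ramsey's theorem for pairs -/
theorem ramsey (P : ℕ → ℕ → Prop) :
    (∃ φ : ℕ → ℕ, StrictMono φ ∧ ∀ n m, n < m → P (φ n) (φ m)) ∨
      ∃ φ : ℕ → ℕ, StrictMono φ ∧ ∀ n m, n < m → ¬ P (φ n) (φ m) := by
  have hU := Filter.hyperfilter_le_cofinite (α := ℕ)
  rcases Ultrafilter.eventually_or.1 (Filter.Eventually.of_forall
    (fun n => em (∀ᶠ m in (Filter.hyperfilter ℕ : Filter ℕ), P n m)) :
    ∀ᶠ n in (Filter.hyperfilter ℕ : Filter ℕ),
      (∀ᶠ m in (Filter.hyperfilter ℕ : Filter ℕ), P n m) ∨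
      ¬ ∀ᶠ m in (Filter.hyperfilter ℕ : Filter ℕ), P n m) with h | h
  · exact Or.inl (seq_of_ultra _ hU P h)
  · refine Or.inr (seq_of_ultra _ hU (fun n m => ¬ P n m) ?_)
    filter_upwards [h] with n hn
    exact Ultrafilter.eventually_not.2 hn

/-- **There is one finite colouring `c` of the natural numbers such that every strictly increasing
sequence `a` of positive integers has an infinite subsequence `a ∘ φ` along which the difference and
the product of any two terms have different colours.**  In particular no strictly increasing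
sequence of positive integers satisfies `c (a m - a n) = c (a n * a m)` for all `n < m`, let alone
has all the differences and all the products in one colour class. -/
theorem result : ∃ (r : ℕ) (c : ℕ → Fin r),
    (∀ a : ℕ → ℕ, StrictMono a → 0 < a 0 → ∃ φ : ℕ → ℕ, StrictMono φ ∧
      ∀ n m : ℕ, n < m → c (a (φ m) - a (φ n)) ≠ c (a (φ n) * a (φ m))) ∧
    ¬ ∃ a : ℕ → ℕ, StrictMono a ∧ 0 < a 0 ∧
      ∀ n m : ℕ, n < m → c (a m - a n) = c (a n * a m) := by
  obtain ⟨r, c, h⟩ := some_pair
  refine ⟨r, c, fun a ha ha0 => ?_, ?_⟩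
  · rcases ramsey (fun n m => c (a m - a n) = c (a n * a m)) with ⟨φ, hφ, h1⟩ | ⟨φ, hφ, h1⟩
    · exfalso
      obtain ⟨n, m, hnm, h2⟩ := h (fun n => a (φ n)) (ha.comp hφ)
        (lt_of_lt_of_le ha0 (ha.monotone (Nat.zero_le _)))
      exact h2 (h1 n m hnm)
    · exact ⟨φ, hφ, h1⟩
  · rintro ⟨a, ha, ha0, h1⟩
    obtain ⟨n, m, hnm, h2⟩ := h a ha ha0
    exact h2 (h1 n m hnm)

end Pool.Agent.Results.MP_741d9e_co.EveryPairDiffers
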